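import Pool.Agent.Helper78.SD.Goals2

/-!
# Packet ART2: descent of an algebra spanned by a small set over a commutative Noetherian ring
-/

universe u v w x

namespace Pool.Agent.Helper75.SD

open Pool.Agent.Helper10.Width Pool.Agent.Helper72.Width Pool.Agent.Helper78.SD

section main

variable {C : Type v} [CommRing C] {S : Type u} [Ring S] [Algebra C S] {G : Set S}

/-- linear combinations of the elements of `G` -/
noncomputable def lc (C : Type v) [CommRing C] {S : Type u} [Ring S] [Algebra C S] (G : Set S) :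
    (G →₀ C) →ₗ[C] S := Finsupp.linearCombination C (Subtype.val : G → S)

theorem lc_apply (x : G →₀ C) : lc C G x = ∑ g ∈ x.support, x g • (g : S) := by
  rw [lc, Finsupp.linearCombination_apply, Finsupp.sum]

theorem lc_surj (hG : Submodule.span C G = ⊤) (s : S) : ∃ x, lc C G x = s := by
  have h : s ∈ LinearMap.range (lc C G) := by
    rw [lc, Finsupp.range_linearCombination, Subtype.range_coe, hG]
    trivial
  exact h

theorem lc_mul (σ : S → (G →₀ C)) (hσ : ∀ s, lc C G (σ s) = s) (x y : G →₀ C) :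
    lc C G (∑ g ∈ x.support, ∑ g' ∈ y.support, (x g * y g') • σ ((g : S) * g')) =
      lc C G x * lc C G y := by
  rw [lc_apply x, lc_apply y, Finset.sum_mul_sum, map_sum]
  refine Finset.sum_congr rfl fun g _ => ?_
  rw [map_sum]
  refine Finset.sum_congr rfl fun g' _ => ?_
  rw [map_smul, hσ, smul_mul_smul_comm]

/-- The linear combinations with coefficients in the subring. -/
def sub (C₀ : Subring C) (σ : S → (G →₀ C)) (hσ : ∀ s, lc C G (σ s) = s)
    (hmul : ∀ (g g' k : G), σ ((g : S) * g') k ∈ C₀) (hone : ∀ k, σ 1 k ∈ C₀) : Subring S where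
  carrier := {s | ∃ x : G →₀ C, (∀ k, x k ∈ C₀) ∧ lc C G x = s}
  mul_mem' := by
    rintro s t ⟨x, hx, rfl⟩ ⟨y, hy, rfl⟩
    refine ⟨_, ?_, lc_mul σ hσ x y⟩
    intro k
    simp only [Finsupp.coe_finsetSum, Finset.sum_apply, Finsupp.coe_smul, Pi.smul_apply,
      smul_eq_mul]
    exact sum_mem fun g _ => sum_mem fun g' _ => mul_mem (mul_mem (hx g) (hy g')) (hmul g g' k)
  one_mem' := ⟨σ 1, hone, hσ 1⟩
  add_mem' := by
    rintro s t ⟨x, hx, rfl⟩ ⟨y, hy, rfl⟩
    exact ⟨x + y, fun k => add_mem (hx k) (hy k), map_add _ _ _⟩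
  zero_mem' := ⟨0, fun k => zero_mem C₀, map_zero _⟩
  neg_mem' := by
    rintro s ⟨x, hx, rfl⟩
    exact ⟨-x, fun k => neg_mem (hx k), map_neg _ _⟩

variable {C₀ : Subring C} {σ : S → (G →₀ C)} (hσ : ∀ s, lc C G (σ s) = s)
    (hmul : ∀ (g g' k : G), σ ((g : S) * g') k ∈ C₀) (hone : ∀ k, σ 1 k ∈ C₀)

theorem mem_sub {s : S} : s ∈ sub C₀ σ hσ hmul hone ↔
    ∃ x : G →₀ C, (∀ k, x k ∈ C₀) ∧ lc C G x = s := Iff.rfl

theorem smul_mem_sub (c : C₀) (g : G) : (c : C) • (g : S) ∈ sub C₀ σ hσ hmul hone := by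
  classical
  refine ⟨Finsupp.single g (c : C), fun k => ?_, ?_⟩
  · rw [Finsupp.single_apply]
    split_ifs
    · exact c.2
    · exact zero_mem C₀
  · rw [lc, Finsupp.linearCombination_single]

theorem sm_sub (h1 : Sm G) (h2 : Sm C₀) : Sm (sub C₀ σ hσ hmul hone) := by
  classical
  choose X hX hL using fun s : sub C₀ σ hσ hmul hone => s.2
  let f : sub C₀ σ hσ hmul hone → List (G × C₀) := fun s =>
    ((X s).support.toList).map fun g => (g, ⟨X s g, hX s g⟩)
  refine Sm.of_injective f ?_ (h1.prod h2).list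
  have key : ∀ s : sub C₀ σ hσ hmul hone,
      (s : S) = ((f s).map fun q => (q.2 : C) • (q.1 : S)).sum := by
    intro s
    rw [← hL s, lc_apply]
    show _ = (List.map (fun q : G × C₀ => (q.2 : C) • (q.1 : S))
      (((X s).support.toList).map fun g => (g, ⟨X s g, hX s g⟩))).sum
    rw [List.map_map, ← Finset.sum_map_toList]
    rfl
  intro s t h
  apply Subtype.ext
  rw [key s, key t, h]

/-- The basis of the ring over the subring. -/
theorem exists_basis {L : Type*} (t : L → (G →₀ C)) (ht : ∀ l k, t l k ∈ C₀)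
    (hker : ∀ l, lc C G (t l) = 0)
    (hsp : ∀ x, lc C G x = 0 → x ∈ Submodule.span C (Set.range t))
    (hsurj : ∀ s, ∃ x, lc C G x = s)
    {J : Type w} (c : Module.Basis J C₀ C) :
    Nonempty (CBasis (sub C₀ σ hσ hmul hone) J) := by
  classical
  set S₀ := sub C₀ σ hσ hmul hone with hS₀
  have hli : LinearIndependent S₀ (fun j => algebraMap C S (c j)) := by
    rw [linearIndependent_iff']
    intro F u hu j hj
    choose X hX hL using fun s : S₀ => s.2
    let Y : G →₀ C := ∑ i ∈ F, c i • X (u i)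
    have hY : lc C G Y = 0 := by
      rw [map_sum, ← hu]
      refine Finset.sum_congr rfl fun i _ => ?_
      rw [map_smul, hL]
      have h3 : u i • algebraMap C S (c i) = c i • (u i : S) := by
        rw [Algebra.smul_def, Algebra.commutes]
        rfl
      rw [h3]
    obtain ⟨d, hd⟩ := (Finsupp.mem_span_range_iff_exists_finsupp).1 (hsp Y hY)
    have hcoord : ∀ g : G, X (u j) g = ∑ l ∈ d.support, ((c.repr (d l) j : C₀) : C) * t l g := by
      intro g
      have h1 : c.repr (Y g) j = ⟨X (u j) g, hX (u j) g⟩ := by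
        have h2 : Y g = ∑ i ∈ F, (⟨X (u i) g, hX (u i) g⟩ : C₀) • c i := by
          simp only [Y, Finsupp.coe_finsetSum, Finset.sum_apply, Finsupp.coe_smul, Pi.smul_apply,
            smul_eq_mul]
          refine Finset.sum_congr rfl fun i _ => ?_
          rw [mul_comm]
          rfl
        rw [h2, map_sum, Finsupp.coe_finsetSum, Finset.sum_apply]
        simp only [map_smul, Module.Basis.repr_self, Finsupp.smul_single, smul_eq_mul, mul_one]
        rw [Finset.sum_eq_single j]
        · exact Finsupp.single_eq_same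
        · intro b _ hb
          exact Finsupp.single_eq_of_ne hb.symm
        · intro h; exact absurd hj h
      have h2 : Y g = ∑ l ∈ d.support, (⟨t l g, ht l g⟩ : C₀) • d l := by
        rw [← hd, Finsupp.sum, Finsupp.coe_finsetSum, Finset.sum_apply]
        refine Finset.sum_congr rfl fun l _ => ?_
        rw [Finsupp.smul_apply, smul_eq_mul, mul_comm]
        rfl
      rw [h2, map_sum, Finsupp.coe_finsetSum, Finset.sum_apply] at h1
      have h3 := congrArg (Subtype.val : C₀ → C) h1
      simp only at h3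
      rw [← h3]
      simp only [map_smul, Finsupp.coe_smul, Pi.smul_apply, smul_eq_mul, AddSubmonoidClass.coe_finsetSum]
      refine Finset.sum_congr rfl fun l _ => ?_
      rw [Subring.coe_mul, mul_comm]
    have hfin : X (u j) = ∑ l ∈ d.support, ((c.repr (d l) j : C₀) : C) • t l := by
      ext g
      rw [hcoord g]
      simp only [Finsupp.coe_finsetSum, Finset.sum_apply, Finsupp.coe_smul, Pi.smul_apply,
        smul_eq_mul]
    apply Subtype.ext
    rw [← hL (u j), hfin, map_sum]
    simp only [map_smul, hker, smul_zero, Finset.sum_const_zero]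
    rfl
  have hspan : ⊤ ≤ Submodule.span S₀ (Set.range fun j => algebraMap C S (c j)) := by
    intro s _
    obtain ⟨x, hx⟩ := hsurj s
    rw [← hx, lc_apply]
    refine sum_mem fun i _ => ?_
    have hc : x i = ∑ j ∈ (c.repr (x i)).support, ((c.repr (x i) j : C₀) : C) * c j := by
      conv_lhs => rw [← c.linearCombination_repr (x i)]
      rw [Finsupp.linearCombination_apply, Finsupp.sum]
      rfl
    rw [hc, Finset.sum_smul]
    refine sum_mem fun j _ => ?_
    have h1 : (((c.repr (x i) j : C₀) : C) * c j) • (i : S) =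
        (⟨((c.repr (x i) j : C₀) : C) • (i : S), smul_mem_sub hσ hmul hone _ i⟩ : S₀) •
          algebraMap C S (c j) := by
      rw [mul_comm, mul_smul, Algebra.smul_def (c j), Algebra.commutes]
      rfl
    rw [h1]
    exact Submodule.smul_mem _ _ (Submodule.subset_span ⟨j, rfl⟩)
  refine ⟨⟨Module.Basis.mk hli hspan, fun j a => ?_⟩⟩
  rw [Module.Basis.mk_apply]
  exact Algebra.commutes _ _

end main

/-- Generators of the relation module. -/
theorem exists_gen {C : Type v} [CommRing C] [IsNoetherianRing C] {X : Type u}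
    (N : Submodule C (X →₀ C)) : ∃ t : Finset X × ℕ → (X →₀ C), (∀ l, t l ∈ N) ∧
      ∀ x ∈ N, x ∈ Submodule.span C (Set.range t) := by
  classical
  have h : ∀ F : Finset X, ∃ (n : ℕ) (s : Fin n → (X →₀ C)),
      Submodule.span C (Set.range s) = N ⊓ Finsupp.supported C C (F : Set X) := by
    intro F
    have hfg : (Finsupp.supported C C (F : Set X)).FG := by
      rw [Finsupp.supported_eq_span_single]
      exact Submodule.fg_span (F.finite_toSet.image _)
    have hn : IsNoetherian C (Finsupp.supported C C (F : Set X)) :=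
      isNoetherian_of_fg_of_noetherian _ hfg
    have h1 := isNoetherian_submodule.1 hn (N ⊓ Finsupp.supported C C (F : Set X)) inf_le_right
    exact Submodule.fg_iff_exists_fin_generating_family.1 h1
  choose n s hs using h
  refine ⟨fun q => if h : q.2 < n q.1 then s q.1 ⟨q.2, h⟩ else 0, ?_, ?_⟩
  · rintro ⟨F, k⟩
    by_cases h : k < n F
    · simp only [h, dif_pos]
      have h1 : s F ⟨k, h⟩ ∈ Submodule.span C (Set.range (s F)) :=
        Submodule.subset_span ⟨_, rfl⟩
      rw [hs] at h1
      exact h1.1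
    · simp only [h, dif_neg, not_false_eq_true]
      exact zero_mem N
  · intro x hx
    have h1 : x ∈ N ⊓ Finsupp.supported C C (x.support : Set X) :=
      ⟨hx, (Finsupp.mem_supported C x).2 subset_rfl⟩
    rw [← hs] at h1
    refine Submodule.span_mono ?_ h1
    rintro _ ⟨k, rfl⟩
    refine ⟨(x.support, (k : ℕ)), ?_⟩
    simp only [k.2, dif_pos]

theorem goalArt2 : GoalArt2.{u, v} := by
  classical
  intro C _ _ hfree S _ _ G hG hspan A hA
  have hsurj := lc_surj (C := C) (S := S) (G := G) hspan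
  choose σ hσ using hsurj
  obtain ⟨t, htN, hts⟩ := exists_gen (LinearMap.ker (lc C G))
  let D : Set C := (Set.range fun q : G × G × G => σ ((q.1 : S) * q.2.1) q.2.2) ∪
    ((Set.range fun k => σ 1 k) ∪ ((Set.range fun q : A × G => σ q.1 q.2) ∪
      Set.range fun q : (Finset G × ℕ) × G => t q.1 q.2))
  have hN : Sm ℕ := by
    show Cardinal.mk ℕ < _
    rw [Cardinal.mk_nat]
    exact aleph0_lt_lift
  have hF : Sm (Finset G) := by
    refine Sm.of_injective (fun F : Finset G => F.toList) ?_ hG.list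
    intro F F' h
    have := congrArg List.toFinset h
    simpa using this
  have hD : Sm D := ((hG.prod (hG.prod hG)).range _).union ((hG.range _).union
    ((Sm.range _ (Sm.prod hA hG)).union (Sm.range _ ((hF.prod hN).prod hG))))
  obtain ⟨C₀, hC₀, hDC, J, hJ, ⟨c⟩⟩ := hfree D hD
  have hmul : ∀ (g g' k : G), σ ((g : S) * g') k ∈ C₀ := fun g g' k =>
    hDC (Or.inl ⟨(g, g', k), rfl⟩)
  have hone : ∀ k, σ 1 k ∈ C₀ := fun k => hDC (Or.inr (Or.inl ⟨k, rfl⟩))
  refine ⟨sub C₀ σ hσ hmul hone, sm_sub hσ hmul hone hG hC₀, fun a ha =>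
    ⟨σ a, fun k => hDC (Or.inr (Or.inr (Or.inl ⟨(⟨a, ha⟩, k), rfl⟩))), hσ a⟩, J, hJ,
    exists_basis hσ hmul hone t (fun l k => hDC (Or.inr (Or.inr (Or.inr ⟨(l, k), rfl⟩))))
      (fun l => htN l) (fun x hx => hts x hx) (fun s => ⟨σ s, hσ s⟩) c⟩

end Pool.Agent.Helper75.SD
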