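import Pool.Agent.Helper71.SD.Goals

set_option autoImplicit false

namespace Pool.Agent.Helper71.SD.SPHE

open Pool.Agent.Helper71.AHtpy SimpleGraph

theorem aff_one (S : Finset E) : aff (1 : Equiv.Perm E).toEmbedding ∅ S = S := by
  unfold aff
  ext i
  simp only [Finset.mem_symmDiff, Finset.notMem_empty, false_and, false_or, not_false_eq_true,
    and_true, Finset.mem_map_equiv]
  exact Iff.rfl

theorem clp_ind (S : Finset E) : clp (0 + ind S) = S := by
  ext i
  unfold clp ind
  simp only [Finset.mem_filter, Finset.mem_univ, true_and, Pi.add_apply, Pi.zero_apply, zero_add]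
  by_cases h : i ∈ S <;> simp [h]

theorem dd_ind (S : Finset E) : dd (0 + ind S) = 0 := by
  unfold dd
  apply Nat.eq_zero_of_le_zero
  apply Finset.sup_le
  intro i _
  unfold ind
  simp only [Pi.add_apply, Pi.zero_apply, zero_add]
  by_cases h : i ∈ S <;> simp [h]

theorem aff_tog (π : Equiv.Perm E) (w S : Finset E) (k : E) :
    aff π.toEmbedding w (tog k S) = tog (π k) (aff π.toEmbedding w S) := by
  ext i
  have h1 : ∀ U : Finset E, i ∈ aff π.toEmbedding w U ↔
      (i ∈ w ∧ π.symm i ∉ U) ∨ (π.symm i ∈ U ∧ i ∉ w) := by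
    intro U
    unfold aff
    rw [Finset.mem_symmDiff, Finset.mem_map_equiv]
  rw [mem_tog, h1, h1, mem_tog]
  have h2 : π.symm i = k ↔ i = π k := by
    constructor
    · intro h
      rw [← h, Equiv.apply_symm_apply]
    · intro h
      rw [h, Equiv.symm_apply_apply]
  have h3 : π.symm i ≠ k ↔ i ≠ π k := not_congr h2
  rw [h2, h3]
  by_cases c1 : i = π k <;> by_cases c2 : i ∈ w <;> by_cases c3 : π.symm i ∈ S <;>
    simp [c1, c2, c3] <;> (try subst c1) <;> simp_all

theorem exists30 : ∃ S : Finset E, S.card = 30 := by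
  obtain ⟨S, _, hS⟩ := Finset.exists_subset_card_eq
    (s := (Finset.univ : Finset E)) (n := 30) (by simp)
  exact ⟨S, hS⟩

theorem sphe : S_L1UP → S_CUB → S_XC1 → S_XC2 → S_SPHE := by
  intro hL hC hX1 hX2 V G A L Φ h0 hΦ
  obtain ⟨x11, x12, _, _, _, _, _, x18⟩ := hX1
  obtain ⟨_, x22, _, _, _, x26, _⟩ := hX2
  ext z₀
  simp only [Set.mem_singleton_iff]
  constructor
  · rintro ⟨π, w, hE⟩
    have hgm := hE.1
    have hb := hE.2.1
    have key : ∀ T : Finset E, 29 ≤ T.card → T.card ≤ 31 →
        clp (z₀ + ind (aff π.toEmbedding w T)) = T := by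
      intro T h1 h2
      have hc := x12 T
      have h6 : ∃ a, 6 ≤ cnt a T := by
        by_contra hcon
        push Not at hcon
        have := hcon 0
        have := hcon 1
        have := hcon 2
        omega
      have h6' : ∃ a, 6 ≤ cnt a Tᶜ := by
        by_contra hcon
        push Not at hcon
        have := hcon 0
        have := hcon 1
        have := hcon 2
        have := x11 0 T
        have := x11 1 T
        have := x11 2 T
        omega
      have hmid : xc T = .mid T := (x22 T T).2 ⟨rfl, h6, h6'⟩
      obtain ⟨a, ha⟩ := h6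
      obtain ⟨a', ha'⟩ := h6'
      have hρ := hL V G A 6 3 _ hgm (by norm_num) (by norm_num) hb T ⟨a, by omega⟩ ⟨a', by omega⟩
      rw [hmid] at hρ
      have hρ' : sph L Φ (z₀ + ind (aff π.toEmbedding w T)) = pt 6 (A.b (.mid T)) 3 := hρ
      unfold sph at hρ'
      rw [pt_eq_iff (by omega) (by norm_num)] at hρ'
      obtain ⟨hlev, hor⟩ := hρ'
      have hlab : Φ (dd (z₀ + ind (aff π.toEmbedding w T)) - 1)
          (xc (clp (z₀ + ind (aff π.toEmbedding w T))), pat (z₀ + ind (aff π.toEmbedding w T)))
          = A.b (.mid T) := by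
        rcases hor with h | h | h
        · omega
        · omega
        · exact h
      rcases Nat.eq_zero_or_pos (dd (z₀ + ind (aff π.toEmbedding w T)) - 1) with hd | hd
      · rw [hd, h0] at hlab
        have h3 := A.b_inj hlab
        exact ((x22 _ _).1 h3).1
      · exact absurd hlab (hΦ _ hd _ _)
    obtain ⟨S, hS⟩ := exists30
    funext k
    have e1 := key S (by omega) (by omega)
    have hk : 29 ≤ (tog k S).card ∧ (tog k S).card ≤ 31 := by
      have h3 := x18 k S
      by_cases hkS : k ∈ S
      · have := h3.1 hkS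
        omega
      · have := h3.2 hkS
        omega
    have e2 := key (tog k S) hk.1 hk.2
    rw [aff_tog] at e2
    -- coordinates
    have c1 : ∀ i, (1 ≤ z₀ i + ind (aff π.toEmbedding w S) i) ↔ i ∈ S := by
      intro i
      conv_rhs => rw [← e1]
      simp [clp]
    have c2 : ∀ i, (1 ≤ z₀ i + ind (tog (π k) (aff π.toEmbedding w S)) i) ↔ i ∈ tog k S := by
      intro i
      conv_rhs => rw [← e2]
      simp [clp]
    have hpk : π k = k := by
      by_contra hne
      have h4 : ind (tog (π k) (aff π.toEmbedding w S)) k = ind (aff π.toEmbedding w S) k := by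
        unfold ind
        have h5 : k ∈ tog (π k) (aff π.toEmbedding w S) ↔ k ∈ aff π.toEmbedding w S := by
          rw [mem_tog]
          constructor
          · rintro (⟨h, _⟩ | ⟨h, _⟩)
            · exact h
            · exact absurd h.symm hne
          · intro h
            exact Or.inl ⟨h, fun h' => hne h'.symm⟩
        simp only [h5]
      have h6 := c2 k
      rw [h4, c1 k, mem_tog] at h6
      by_cases hkS : k ∈ S
      · have := h6.1 hkS
        rcases this with h | h
        · exact h.2 rfl
        · exact h.2 hkS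
      · exact hkS (h6.2 (Or.inr ⟨rfl, hkS⟩))
    rw [hpk] at c2
    have a1 := c1 k
    have a2 := c2 k
    show z₀ k = 0
    generalize aff π.toEmbedding w S = U at a1 a2
    have h7 : k ∈ tog k S ↔ k ∉ S := by
      rw [mem_tog]
      simp
    have h8 : k ∈ tog k U ↔ k ∉ U := by
      rw [mem_tog]
      simp
    unfold ind at a1 a2
    by_cases hU : k ∈ U <;> by_cases hkS : k ∈ S <;> simp only [h7, h8, hU, hkS, if_true, if_false,
      not_true_eq_false, not_false_eq_true, iff_true, iff_false, not_le] at a1 a2 <;> omega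
  · rintro rfl
    refine ⟨1, ∅, ?_⟩
    have h1 : (fun S => sph L Φ (0 + ind (aff (1 : Equiv.Perm E).toEmbedding ∅ S)))
        = fun S => pt 6 (A.b (xc S)) (hgt S) := by
      funext S
      rw [aff_one]
      unfold sph
      rw [clp_ind, dd_ind, h0]
      congr 1
      have := x26 S
      omega
    have h2 := hC V G A
    rw [← h1] at h2
    exact h2

end Pool.Agent.Helper71.SD.SPHE
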