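import Pool.Agent.Helper71.SD.Goals

set_option autoImplicit false

namespace Pool.Agent.Helper71.SD.XC1

open Pool.Agent.Helper71.AHtpy SimpleGraph

theorem card_blk (a : Fin 3) : ((Finset.univ : Finset E).filter fun i => blk i = a).card = 20 := by
  fin_cases a <;> rfl

theorem cnt_add_compl (a : Fin 3) (S : Finset E) : cnt a S + cnt a Sᶜ = 20 := by
  unfold cnt
  rw [← card_blk a, ← Finset.card_union_of_disjoint]
  · congr 1
    ext i
    simp only [Finset.mem_union, Finset.mem_filter, Finset.mem_compl, Finset.mem_univ, true_and]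
    tauto
  · rw [Finset.disjoint_left]
    intro i hi hi'
    rw [Finset.mem_filter] at hi hi'
    exact (Finset.mem_compl.1 hi'.1) hi.1

theorem tog_mem {ι : Type} [DecidableEq ι] {a : ι} {S : Finset ι} (h : a ∈ S) :
    tog a S = S.erase a := by
  ext i
  rw [mem_tog, Finset.mem_erase]
  constructor
  · rintro (⟨h1, h2⟩ | ⟨h1, h2⟩)
    · exact ⟨h2, h1⟩
    · subst h1
      exact absurd h h2
  · rintro ⟨h1, h2⟩
    exact Or.inl ⟨h2, h1⟩

theorem tog_notMem {ι : Type} [DecidableEq ι] {a : ι} {S : Finset ι} (h : a ∉ S) :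
    tog a S = insert a S := by
  ext i
  rw [mem_tog, Finset.mem_insert]
  constructor
  · rintro (⟨h1, _⟩ | ⟨h1, _⟩)
    · exact Or.inr h1
    · exact Or.inl h1
  · rintro (h1 | h1)
    · subst h1
      exact Or.inr ⟨rfl, h⟩
    · refine Or.inl ⟨h1, ?_⟩
      rintro rfl
      exact h h1

theorem xc1 : S_XC1 := by
  refine ⟨?_, ?_, ?_, ?_, ?_, ?_, ?_, ?_⟩
  · intro a S
    have h := cnt_add_compl a S
    omega
  · intro S
    have h := Finset.card_eq_sum_card_fiberwise (f := blk) (s := S) (t := Finset.univ)
      (fun x _ => Finset.mem_coe.2 (Finset.mem_univ _))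
    rw [Fin.sum_univ_three] at h
    exact h
  · intro a i S
    refine ⟨?_, ?_, ?_⟩
    · intro h
      unfold cnt
      congr 1
      ext j
      rw [Finset.mem_filter, Finset.mem_filter, mem_tog]
      constructor
      · rintro ⟨(⟨h1, _⟩ | ⟨h1, _⟩), h3⟩
        · exact ⟨h1, h3⟩
        · subst h1
          exact absurd h3 h
      · rintro ⟨h1, h3⟩
        refine ⟨Or.inl ⟨h1, ?_⟩, h3⟩
        rintro rfl
        exact h h3
    · intro h hi
      rw [tog_mem hi]
      unfold cnt
      rw [Finset.filter_erase]
      exact Finset.card_erase_add_one (Finset.mem_filter.2 ⟨hi, h⟩)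
    · intro h hi
      rw [tog_notMem hi]
      unfold cnt
      rw [Finset.filter_insert, if_pos h]
      exact Finset.card_insert_of_notMem (fun h' => hi (Finset.mem_filter.1 h').1)
  · intro a S T h
    exact Finset.card_le_card (Finset.filter_subset_filter _ h)
  · intro a S m h
    have h1 : m ≤ (Sᶜ.filter fun i => blk i = a).card := by
      have := cnt_add_compl a S
      unfold cnt at this h
      omega
    obtain ⟨U, hU, hUc⟩ := Finset.exists_subset_card_eq h1
    refine ⟨U, hUc, ?_, ?_⟩
    · rw [Finset.disjoint_left]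
      intro i hi hiS
      have h2 := (Finset.mem_filter.1 (hU hi)).1
      exact (Finset.mem_compl.1 h2) hiS
    · intro i hi
      exact (Finset.mem_filter.1 (hU hi)).2
  · intro i S
    ext j
    rw [Finset.mem_compl, mem_tog, mem_tog, Finset.mem_compl]
    by_cases h1 : j = i <;> by_cases h2 : j ∈ S <;> simp_all
  · intro i j S
    ext k
    rw [mem_tog, mem_tog, mem_tog, mem_tog]
    by_cases h1 : k = i <;> by_cases h2 : k = j <;> by_cases h3 : k ∈ S <;> simp_all
  · intro i S
    constructor
    · intro h
      rw [tog_mem h]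
      exact Finset.card_erase_add_one h
    · intro h
      rw [tog_notMem h]
      exact Finset.card_insert_of_notMem h

end Pool.Agent.Helper71.SD.XC1
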